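import Mathlib.Combinatorics.SimpleGraph.DegreeSum
import Mathlib.Combinatorics.SimpleGraph.Connectivity.Connected
import Mathlib.GroupTheory.Perm.Cycle.Basic
import Mathlib.Data.Set.Card

/-!
# Connected plane graphs as rotation systems (for MP_cadcf7_co)
-/

set_option autoImplicit false

namespace Pool.Agent.Q39.PL

variable {V : Type}

/-- The reversal of the darts (the oriented edges). -/
def rev (G : SimpleGraph V) : Equiv.Perm G.Dart :=
  Function.Involutive.toPerm SimpleGraph.Dart.symm SimpleGraph.Dart.symm_involutive

/-- The next dart on the same face: reverse the dart and rotate about its first vertex. -/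
def next (G : SimpleGraph V) (rot : Equiv.Perm G.Dart) : Equiv.Perm G.Dart := rot * rev G

/-- The faces: the orbits of `next`. -/
def Face (G : SimpleGraph V) (rot : Equiv.Perm G.Dart) : Type :=
  Quotient (Equiv.Perm.SameCycle.setoid (next G rot))

/-- The face of a dart. -/
def faceOf (G : SimpleGraph V) (rot : Equiv.Perm G.Dart) (d : G.Dart) : Face G rot :=
  Quotient.mk _ d

/-- A connected plane graph: a connected simple graph on the finite set `V` with a cyclic order
`rot` of the darts which start at each vertex (a rotation system), such that Euler's formula
`#V + #F = #E + 2` holds for the faces of the rotation system (the embedding is in the sphere, or,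
which is the same, in the plane). -/
structure PlaneGraph (V : Type) [Fintype V] where
  /-- the graph -/
  G : SimpleGraph V
  /-- the rotation -/
  rot : Equiv.Perm G.Dart
  rot_fst : ∀ d, (rot d).fst = d.fst
  rot_trans : ∀ d e : G.Dart, d.fst = e.fst → rot.SameCycle d e
  conn : G.Connected
  euler : Nat.card V + Nat.card (Face G rot) = G.edgeSet.ncard + 2

/-- The degree of a vertex. -/
noncomputable def deg (G : SimpleGraph V) (v : V) : ℕ := (G.neighborSet v).ncard

variable [Fintype V]

/-- The darts of the triangular faces whose three vertices have the degrees `i`, `j`, `k`, as a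
multiset. -/
def PlaneGraph.triDarts (P : PlaneGraph V) (i j k : ℕ) : Set P.G.Dart :=
  {d | next P.G P.rot (next P.G P.rot (next P.G P.rot d)) = d ∧
    ({deg P.G d.fst, deg P.G (next P.G P.rot d).fst,
      deg P.G (next P.G P.rot (next P.G P.rot d)).fst} : Multiset ℕ) = {i, j, k}}

/-- `f_{i,j,k}`: the number of the triangular faces whose three vertices have the degrees `i`, `j`,
`k`, as a multiset. -/
noncomputable def PlaneGraph.f (P : PlaneGraph V) (i j k : ℕ) : ℕ :=
  (faceOf P.G P.rot '' P.triDarts i j k).ncard

end Pool.Agent.Q39.PL
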